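import Pool.Agent.H.MP_0ae2e1_co.Final

set_option autoImplicit false

namespace Pool.Agent.Results.MP_0ae2e1_co.FewTriangles

/-- Every finite simple graph in which each edge lies in at most three triangles has a colouring of
its edges with two colours containing no monochromatic triangle. -/
theorem result {V : Type*} [Finite V] (G : SimpleGraph V)
    (hG : ∀ u v : V, G.Adj u v →
      {T : Finset V | G.IsNClique 3 T ∧ u ∈ T ∧ v ∈ T}.ncard ≤ 3) :
    ∃ c : Sym2 V → Bool, ∀ x y z : V, G.Adj x y → G.Adj y z → G.Adj x z →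
      ¬ (c s(x, y) = c s(y, z) ∧ c s(y, z) = c s(x, z)) :=
  Pool.Agent.H.MP_0ae2e1_co.main G hG

end Pool.Agent.Results.MP_0ae2e1_co.FewTriangles
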